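import Pool.Agent.H252.MD.Iface

/-!
MD-OMEGA (helper388, for helper252): block markers.
-/

set_option autoImplicit false

namespace Pool.Agent.H388.MDO

open Filter Topology
open Pool.Agent.H252.MD

noncomputable section

/-! ### counting separated sets of integers -/

theorem card_le_of_sep (S : Finset ℤ) (a b : ℤ) (G : ℕ) (hG : 0 < G) (hab : a ≤ b)
    (hS : ∀ c ∈ S, a ≤ c ∧ c < b)
    (hsep : ∀ c ∈ S, ∀ c' ∈ S, c < c' → (G : ℤ) ≤ c' - c) :
    (S.card : ℝ) ≤ ((b - a : ℤ) : ℝ) / G + 1 := by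
  have hG' : (0 : ℤ) < G := by exact_mod_cast hG
  have h1 : S.card ≤ (Finset.range (((b - a) / G).toNat + 1)).card := by
    apply Finset.card_le_card_of_injOn (fun c => ((c - a) / G).toNat)
    · intro c hc
      obtain ⟨h2, h3⟩ := hS c hc
      simp only [Finset.coe_range, Set.mem_Iio]
      have h4 : (c - a) / G ≤ (b - a) / G := Int.ediv_le_ediv hG' (by omega)
      have h5 : 0 ≤ (c - a) / G := Int.ediv_nonneg (by omega) hG'.le
      omega
    · intro c hc c' hc' h
      simp only at h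
      obtain ⟨h2, -⟩ := hS c hc
      obtain ⟨h2', -⟩ := hS c' hc'
      have h5 : 0 ≤ (c - a) / G := Int.ediv_nonneg (by omega) hG'.le
      have h5' : 0 ≤ (c' - a) / G := Int.ediv_nonneg (by omega) hG'.le
      have h6 : (c - a) / G = (c' - a) / G := by omega
      have key : ∀ u v : ℤ, u ∈ S → v ∈ S → u < v → (u - a) / G = (v - a) / G → False := by
        intro u v hu hv huv he
        have h7 := hsep u hu v hv huv
        have h8 : (u - a) / G + 1 ≤ (v - a) / G := by
          have h9 : (u - a + 1 * (G : ℤ)) / G = (u - a) / G + 1 :=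
            Int.add_mul_ediv_right _ _ hG'.ne'
          rw [← h9]
          exact Int.ediv_le_ediv hG' (by omega)
        omega
      rcases lt_trichotomy c c' with hl | he | hl
      · exact (key c c' hc hc' hl h6).elim
      · exact he
      · exact (key c' c hc' hc hl h6.symm).elim
  rw [Finset.card_range] at h1
  have h9 : (S.card : ℝ) ≤ (((b - a) / G).toNat : ℝ) + 1 := by exact_mod_cast h1
  have h10 : ((((b - a) / G).toNat : ℤ)) = (b - a) / G :=
    Int.toNat_of_nonneg (Int.ediv_nonneg (by omega) hG'.le)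
  have h11 : ((((b - a) / G).toNat : ℝ)) = (((b - a) / G : ℤ) : ℝ) := by exact_mod_cast h10
  have h12 : (((b - a) / G : ℤ) : ℝ) ≤ ((b - a : ℤ) : ℝ) / G := by
    rw [le_div_iff₀ (by exact_mod_cast hG)]
    have := Int.ediv_mul_le (b - a) hG'.ne'
    exact_mod_cast this
  linarith

/-! ### competing cuts -/

/-- the strength of the cut `c` at time `m` -/
def st (t : ℤ → ℝ) (c m : ℤ) : ℝ := t c / (((m - c : ℤ) : ℝ) + 1)

/-- the situation: `t c` is the weight of the cut `c`, `M m` is the maximal strength at time `m` -/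
structure Sit (t M : ℤ → ℝ) (N J : ℕ) (δ : ℝ) : Prop where
  nonneg : ∀ c, 0 ≤ t c
  sep : ∀ c, ∀ i : ℕ, 1 ≤ i → i ≤ N → t c ≠ 0 → t (c + i) = 0
  pos : ∀ m, 0 < M m
  bd : ∀ c m, c ≤ m → st t c m ≤ M m
  att : ∀ m, ∃ c, c ≤ m ∧ st t c m = M m
  win : ∀ c m, c ≤ m → (1 - δ) * M m < st t c m → m - c ≤ J
  dpos : 0 < δ
  dle : δ ≤ 1 / 2
  dJ : ∀ A : ℝ, 1 ≤ A → A ≤ J + 1 → ∀ D k : ℝ, 1 ≤ D → 1 ≤ k →
    (A + D + k) * A ≤ (1 - δ) ^ 2 * ((A + D) * (A + k))

/-- the cut `c` is alive at time `m` -/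
def Alive (t M : ℤ → ℝ) (δ : ℝ) (c m : ℤ) : Prop := c ≤ m ∧ (1 - δ) * M m < st t c m

/-- bad times -/
def Bad (t M : ℤ → ℝ) (δ : ℝ) (m : ℤ) : Prop :=
  (∃ c c', c' < c ∧ Alive t M δ c m ∧ Alive t M δ c' m) ∨
  ∃ c c', c ≠ c' ∧ (Alive t M δ c m ∧ ∀ d, Alive t M δ d m → d = c) ∧
    (Alive t M δ c' (m + 1) ∧ ∀ d, Alive t M δ d (m + 1) → d = c')

section

variable {t M : ℤ → ℝ} {N J : ℕ} {δ : ℝ} (h : Sit t M N J δ)

include h

theorem Sit.tpos {c m : ℤ} (ha : Alive t M δ c m) : 0 < t c := by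
  have h1 : 0 < st t c m := by
    have := mul_pos (show (0 : ℝ) < 1 - δ by have := h.dle; linarith) (h.pos m)
    exact this.trans ha.2
  have h2 : (0 : ℝ) < ((m - c : ℤ) : ℝ) + 1 := by
    have : (0 : ℝ) ≤ ((m - c : ℤ) : ℝ) := by exact_mod_cast (by have := ha.1; omega)
    linarith
  unfold st at h1
  by_contra hc
  have h3 := h.nonneg c
  have h4 : t c = 0 := by linarith
  rw [h4, zero_div] at h1
  exact lt_irrefl _ h1

theorem Sit.cutsep {c c' : ℤ} (hc : t c ≠ 0) (hc' : t c' ≠ 0) (hlt : c < c') :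
    ((N + 1 : ℕ) : ℤ) ≤ c' - c := by
  by_contra hn
  apply hc'
  have := h.sep c (c' - c).toNat (by omega) (by push_cast at hn; omega) hc
  rwa [Int.toNat_of_nonneg (by omega), add_sub_cancel] at this

theorem Sit.exAlive (m : ℤ) : ∃ c, Alive t M δ c m := by
  obtain ⟨c, h1, h2⟩ := h.att m
  refine ⟨c, h1, ?_⟩
  rw [h2]
  have := mul_pos h.dpos (h.pos m)
  nlinarith

/-- (A): if `c' < c` are both alive at `m`, then `c` is not alive later -/
theorem Sit.caseA {c c' m m' : ℤ} (hlt : c' < c) (h1 : Alive t M δ c m) (h2 : Alive t M δ c' m)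
    (hm : m < m') : ¬ Alive t M δ c m' := by
  intro h3
  have hcm := h1.1
  have hJ := h.win c m h1.1 h1.2
  set A : ℝ := ((m - c : ℤ) : ℝ) + 1 with hA
  set D : ℝ := ((c - c' : ℤ) : ℝ) with hD
  set k : ℝ := ((m' - m : ℤ) : ℝ) with hk
  have hA1 : 1 ≤ A := by
    have : (0 : ℝ) ≤ ((m - c : ℤ) : ℝ) := by exact_mod_cast (by omega)
    linarith
  have hA2 : A ≤ J + 1 := by
    have : ((m - c : ℤ) : ℝ) ≤ J := by exact_mod_cast hJ
    linarith
  have hD1 : 1 ≤ D := by
    have : (1 : ℤ) ≤ c - c' := by omega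
    rw [hD]; exact_mod_cast this
  have hk1 : 1 ≤ k := by
    have : (1 : ℤ) ≤ m' - m := by omega
    rw [hk]; exact_mod_cast this
  have e1 : st t c m = t c / A := rfl
  have e2 : st t c' m = t c' / (A + D) := by
    unfold st; congr 1; rw [hA, hD]; push_cast; ring
  have e3 : st t c m' = t c / (A + k) := by
    unfold st; congr 1; rw [hA, hk]; push_cast; ring
  have e4 : st t c' m' = t c' / (A + D + k) := by
    unfold st; congr 1; rw [hA, hD, hk]; push_cast; ring
  have b1 := h.bd c m h1.1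
  have b2 := h2.2
  have b3 := h3.2
  have b4 := h.bd c' m' (by omega)
  rw [e1] at b1
  rw [e2] at b2
  rw [e3] at b3
  rw [e4] at b4
  have hδ : (0 : ℝ) < 1 - δ := by have := h.dle; linarith
  have p1 : 0 < A := by linarith
  have p2 : 0 < A + D := by linarith
  have p3 : 0 < A + k := by linarith
  have p4 : 0 < A + D + k := by linarith
  rw [div_le_iff₀ p1] at b1
  rw [lt_div_iff₀ p2] at b2
  rw [lt_div_iff₀ p3] at b3
  rw [div_le_iff₀ p4] at b4
  have hdj := h.dJ A hA1 hA2 D k hD1 hk1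
  -- t c ≤ M m A, (1-δ) M m (A+D) < t c', (1-δ) M m' (A+k) < t c, t c' ≤ M m' (A+D+k)
  have hM := h.pos m
  have hM' := h.pos m'
  -- multiply
  have q1 : (1 - δ) * M m * (A + D) < M m' * (A + D + k) := lt_of_lt_of_le b2 b4
  have q2 : (1 - δ) * M m' * (A + k) < M m * A := lt_of_lt_of_le b3 b1
  have q3 : ((1 - δ) * M m * (A + D)) * ((1 - δ) * M m' * (A + k)) <
      (M m' * (A + D + k)) * (M m * A) := by
    apply mul_lt_mul'' q1 q2
    · positivity
    · positivity
  have q4 : (M m' * (A + D + k)) * (M m * A) ≤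
      ((1 - δ) * M m * (A + D)) * ((1 - δ) * M m' * (A + k)) := by
    have := mul_le_mul_of_nonneg_left hdj (mul_pos hM hM').le
    nlinarith
  exact absurd q3 (not_lt.mpr q4)

theorem Sit.bad_imp {m : ℤ} (hb : Bad t M δ m) :
    t (m + 1) ≠ 0 ∨ ∃ c, Alive t M δ c m ∧ ∀ m', m < m' → ¬ Alive t M δ c m' := by
  rcases hb with ⟨c, c', hlt, h1, h2⟩ | ⟨c, c', hne, ⟨h1, u1⟩, h2, u2⟩
  · exact Or.inr ⟨c, h1, fun m' hm => h.caseA hlt h1 h2 hm⟩
  · -- both argmax
    obtain ⟨d, hd1, hd2⟩ := h.att m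
    have hdA : Alive t M δ d m := by
      refine ⟨hd1, ?_⟩
      rw [hd2]
      have := mul_pos h.dpos (h.pos m)
      nlinarith
    have hdc := u1 d hdA
    rw [hdc] at hd2
    obtain ⟨d', hd1', hd2'⟩ := h.att (m + 1)
    have hdA' : Alive t M δ d' (m + 1) := by
      refine ⟨hd1', ?_⟩
      rw [hd2']
      have := mul_pos h.dpos (h.pos (m + 1))
      nlinarith
    have hdc' := u2 d' hdA'
    rw [hdc'] at hd2'
    by_cases hcm : c' = m + 1
    · left
      rw [← hcm]
      exact (h.tpos h2).ne'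
    · right
      have hc'm : c' ≤ m := by have := h2.1; omega
      have hcm' := h1.1
      have hδ : (0 : ℝ) < 1 - δ := by have := h.dle; linarith
      rcases lt_or_gt_of_ne hne with hlt | hlt
      · -- c < c' ≤ m: impossible
        exfalso
        set A : ℝ := ((m - c' : ℤ) : ℝ) + 1 with hA
        set D : ℝ := ((c' - c : ℤ) : ℝ) with hD
        have hA1 : 1 ≤ A := by
          have : (0 : ℝ) ≤ ((m - c' : ℤ) : ℝ) := by exact_mod_cast (by omega)
          linarith
        have hD1 : 1 ≤ D := by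
          have : (1 : ℤ) ≤ c' - c := by omega
          rw [hD]; exact_mod_cast this
        have e1 : st t c' m = t c' / A := rfl
        have e2 : st t c m = t c / (A + D) := by
          unfold st; congr 1; rw [hA, hD]; push_cast; ring
        have e3 : st t c' (m + 1) = t c' / (A + 1) := by
          unfold st; congr 1; rw [hA]; push_cast; ring
        have e4 : st t c (m + 1) = t c / (A + D + 1) := by
          unfold st; congr 1; rw [hA, hD]; push_cast; ring
        have b1 := h.bd c (m + 1) (by omega)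
        rw [← hd2', e3, e4] at b1
        rw [div_le_div_iff₀ (by linarith) (by linarith)] at b1
        have hnot : ¬ Alive t M δ c' m := fun hx => hne (u1 c' hx).symm
        apply hnot
        refine ⟨hc'm, ?_⟩
        have hge : M m ≤ st t c' m := by
          rw [← hd2, e1, e2, div_le_div_iff₀ (by linarith) (by linarith)]
          -- t c * A ≤ t c' * (A+D); have t c * (A+1) ≤ t c' * (A+D+1)
          have hc0 := h.nonneg c
          have hc0' := h.nonneg c'
          -- t c ≤ t c' (A+D+1)/(A+1) ≤ t c' (A+D)/A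
          have h3 : (A + D + 1) * A ≤ (A + D) * (A + 1) := by nlinarith
          have h4 : t c * (A + 1) * A ≤ t c' * (A + D + 1) * A :=
            mul_le_mul_of_nonneg_right b1 (by linarith)
          have h5 : t c' * ((A + D + 1) * A) ≤ t c' * ((A + D) * (A + 1)) :=
            mul_le_mul_of_nonneg_left h3 hc0'
          have h6 : (t c * A) * (A + 1) ≤ (t c' * (A + D)) * (A + 1) := by nlinarith
          exact le_of_mul_le_mul_right h6 (by linarith)
        have := mul_pos h.dpos (h.pos m)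
        nlinarith
      · -- c' < c
        refine ⟨c, h1, fun m' hm hal => ?_⟩
        set A : ℝ := ((m + 1 - c : ℤ) : ℝ) + 1 with hA
        set D : ℝ := ((c - c' : ℤ) : ℝ) with hD
        set k : ℝ := ((m' - (m + 1) : ℤ) : ℝ) with hk
        have hA1 : 1 ≤ A := by
          have : (0 : ℝ) ≤ ((m + 1 - c : ℤ) : ℝ) := by exact_mod_cast (by omega)
          linarith
        have hD1 : 1 ≤ D := by
          have : (1 : ℤ) ≤ c - c' := by omega
          rw [hD]; exact_mod_cast this
        have hk0 : 0 ≤ k := by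
          have : (0 : ℤ) ≤ m' - (m + 1) := by omega
          rw [hk]; exact_mod_cast this
        have e1 : st t c (m + 1) = t c / A := rfl
        have e2 : st t c' (m + 1) = t c' / (A + D) := by
          unfold st; congr 1; rw [hA, hD]; push_cast; ring
        have e3 : st t c m' = t c / (A + k) := by
          unfold st; congr 1; rw [hA, hk]; push_cast; ring
        have e4 : st t c' m' = t c' / (A + D + k) := by
          unfold st; congr 1; rw [hA, hD, hk]; push_cast; ring
        have hnot : ¬ Alive t M δ c (m + 1) := fun hx => hne (u2 c hx)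
        have b1 : st t c (m + 1) ≤ (1 - δ) * M (m + 1) := by
          by_contra hcon
          exact hnot ⟨by omega, not_le.mp hcon⟩
        rw [← hd2', e1, e2] at b1
        have b2 := hal.2
        have b3 := h.bd c' m' (by omega)
        rw [e3] at b2
        rw [e4] at b3
        have b4 : t c / (A + k) ≤ (1 - δ) * (t c' / (A + D + k)) := by
          rw [← mul_div_assoc, div_le_div_iff₀ (by linarith) (by linarith)]
          rw [← mul_div_assoc, div_le_div_iff₀ (by linarith) (by linarith)] at b1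
          -- t c (A+D) ≤ (1-δ) t c' A  ⊢ t c (A+D+k) ≤ (1-δ) t c' (A+k)
          have hc0' := h.nonneg c'
          have h3 : A * (A + D + k) ≤ (A + k) * (A + D) := by nlinarith
          have h4 : (1 - δ) * t c' * (A * (A + D + k)) ≤ (1 - δ) * t c' * ((A + k) * (A + D)) :=
            mul_le_mul_of_nonneg_left h3 (by positivity)
          have h5 : t c * (A + D) * (A + D + k) ≤ (1 - δ) * t c' * A * (A + D + k) :=
            mul_le_mul_of_nonneg_right b1 (by linarith)
          have h6 : (t c * (A + D + k)) * (A + D) ≤ ((1 - δ) * t c' * (A + k)) * (A + D) := by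
            nlinarith
          exact le_of_mul_le_mul_right h6 (by linarith)
        have b5 : (1 - δ) * (t c' / (A + D + k)) ≤ (1 - δ) * M m' :=
          mul_le_mul_of_nonneg_left b3 hδ.le
        linarith

/-! ### runs without bad times -/

omit h in
theorem step {m : ℤ} (h0 : ¬ Bad t M δ m) (h1 : ¬ Bad t M δ (m + 1)) {c c' : ℤ}
    (hc : Alive t M δ c m) (hc' : Alive t M δ c' (m + 1)) : c = c' := by
  have uniq : ∀ {j : ℤ}, ¬ Bad t M δ j → ∀ {a b : ℤ}, Alive t M δ a j → Alive t M δ b j →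
      a = b := by
    intro j hj a b ha hb
    by_contra hne
    apply hj
    left
    rcases lt_or_gt_of_ne hne with hl | hl
    · exact ⟨b, a, hl, hb, ha⟩
    · exact ⟨a, b, hl, ha, hb⟩
  by_contra hne
  apply h0
  right
  exact ⟨c, c', hne, ⟨hc, fun d hd => uniq h0 hd hc⟩, hc', fun d hd => uniq h1 hd hc'⟩

theorem Sit.run {m : ℤ} {k : ℕ} (hgood : ∀ j : ℤ, m ≤ j → j < m + k → ¬ Bad t M δ j) {c : ℤ}
    (hc : Alive t M δ c m) : ∀ i : ℕ, i < k → ∀ c', Alive t M δ c' (m + i) → c = c' := by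
  intro i
  induction i with
  | zero =>
    intro hk c' hc'
    have hb := hgood m le_rfl (by omega)
    by_contra hne
    apply hb
    left
    simp only [Nat.cast_zero, add_zero] at hc'
    rcases lt_or_gt_of_ne hne with hl | hl
    · exact ⟨c', c, hl, hc', hc⟩
    · exact ⟨c, c', hl, hc, hc'⟩
  | succ i ih =>
    intro hk c' hc'
    obtain ⟨c'', h2⟩ := h.exAlive (m + i)
    have h3 := ih (by omega) c'' h2
    have h4 : m + ((i + 1 : ℕ) : ℤ) = m + i + 1 := by push_cast; ring
    rw [h4] at hc'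
    have h5 := step (hgood (m + i) (by omega) (by omega))
      (hgood (m + i + 1) (by omega) (by omega)) h2 hc'
    rw [h3, h5]

/-- the number of times at which a block starts -/
theorem Sit.count {n : ℕ} (hn : 1 ≤ n) (W : ℤ → Prop) [DecidablePred W]
    (hW : ∀ m, W m → ∃ (i : ℕ) (c : ℤ), i < n ∧ c ≤ m ∧ (n : ℤ) ∣ m - c ∧
      Alive t M δ c (m + i)) (L : ℕ) :
    (((Finset.Ico (0 : ℤ) L).filter W).card : ℝ) ≤
      L / n + 1 + n * (2 * ((L + n + J) / (N + 1) + 1)) := by
  classical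
  set K : ℤ := L + n with hK
  set B := (Finset.Ico (0 : ℤ) K).filter (Bad t M δ) with hB
  set P1 := (Finset.Ico (0 : ℤ) K).filter (fun m => t (m + 1) ≠ 0) with hP1
  set P2 := (Finset.Ico (0 : ℤ) K).filter
    (fun m => ∃ c, Alive t M δ c m ∧ ∀ m', m < m' → ¬ Alive t M δ c m') with hP2
  have hKpos : (0 : ℤ) ≤ K := by positivity
  have hB12 : B ⊆ P1 ∪ P2 := by
    intro m hm
    rw [hB, Finset.mem_filter] at hm
    rw [Finset.mem_union, hP1, hP2, Finset.mem_filter, Finset.mem_filter]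
    rcases h.bad_imp hm.2 with h1 | h1
    · exact Or.inl ⟨hm.1, h1⟩
    · exact Or.inr ⟨hm.1, h1⟩
  have hc1 : (P1.card : ℝ) ≤ (L + n + J) / (N + 1) + 1 := by
    have := card_le_of_sep P1 0 K (N + 1) (by omega) hKpos
      (by intro c hc; rw [hP1, Finset.mem_filter, Finset.mem_Ico] at hc; exact hc.1)
      (by
        intro c hc c' hc' hl
        rw [hP1, Finset.mem_filter] at hc hc'
        have := h.cutsep hc.2 hc'.2 (by omega)
        omega)
    refine this.trans ?_
    have h2 : ((K - 0 : ℤ) : ℝ) ≤ (L : ℝ) + n + J := by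
      rw [hK]; push_cast
      have : (0 : ℝ) ≤ J := by positivity
      linarith
    push_cast
    gcongr
    rw [hK]; push_cast; linarith [(by positivity : (0 : ℝ) ≤ (J : ℝ))]
  have hc2 : (P2.card : ℝ) ≤ (L + n + J) / (N + 1) + 1 := by
    let f : ℤ → ℤ := fun m => if hm : ∃ c, Alive t M δ c m ∧ ∀ m', m < m' → ¬ Alive t M δ c m'
      then hm.choose else 0
    have hf : ∀ m ∈ P2, Alive t M δ (f m) m ∧ ∀ m', m < m' → ¬ Alive t M δ (f m) m' := by
      intro m hm
      rw [hP2, Finset.mem_filter] at hm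
      simp only [f, dif_pos hm.2]
      exact hm.2.choose_spec
    have hinj : Set.InjOn f P2 := by
      intro a ha b hb hab
      have h1 := hf a ha
      have h2 := hf b hb
      rcases lt_trichotomy a b with hl | he | hl
      · exact (h1.2 b hl (hab ▸ h2.1)).elim
      · exact he
      · exact (h2.2 a hl (hab ▸ h1.1)).elim
    rw [← Finset.card_image_of_injOn hinj]
    have := card_le_of_sep (P2.image f) (-(J : ℤ)) K (N + 1) (by omega) (by omega)
      (by
        intro c hc
        rw [Finset.mem_image] at hc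
        obtain ⟨m, hm, rfl⟩ := hc
        have h1 := (hf m hm).1
        have h2 := h.win _ _ h1.1 h1.2
        have h3 := h1.1
        rw [hP2, Finset.mem_filter, Finset.mem_Ico] at hm
        omega)
      (by
        intro c hc c' hc' hl
        rw [Finset.mem_image] at hc hc'
        obtain ⟨m, hm, rfl⟩ := hc
        obtain ⟨m', hm', rfl⟩ := hc'
        exact h.cutsep (h.tpos (hf m hm).1).ne' (h.tpos (hf m' hm').1).ne' hl)
    refine this.trans (le_of_eq ?_)
    rw [hK]; push_cast; ring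
  have hBc : (B.card : ℝ) ≤ 2 * ((L + n + J) / (N + 1) + 1) := by
    have h1 : B.card ≤ P1.card + P2.card :=
      (Finset.card_le_card hB12).trans (Finset.card_union_le _ _)
    have h2 : (B.card : ℝ) ≤ P1.card + P2.card := by exact_mod_cast h1
    linarith
  set WG := (Finset.Ico (0 : ℤ) L).filter
    (fun m => W m ∧ ∀ j : ℤ, m ≤ j → j < m + n → ¬ Bad t M δ j) with hWG
  set WB := B.biUnion (fun b => Finset.Ioc (b - n) b) with hWB
  have hsub : (Finset.Ico (0 : ℤ) L).filter W ⊆ WG ∪ WB := by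
    intro m hm
    rw [Finset.mem_filter, Finset.mem_Ico] at hm
    rw [Finset.mem_union]
    by_cases hg : ∀ j : ℤ, m ≤ j → j < m + n → ¬ Bad t M δ j
    · left
      rw [hWG, Finset.mem_filter, Finset.mem_Ico]
      exact ⟨hm.1, hm.2, hg⟩
    · right
      push Not at hg
      obtain ⟨j, hj1, hj2, hj3⟩ := hg
      rw [hWB, Finset.mem_biUnion]
      refine ⟨j, ?_, ?_⟩
      · rw [hB, Finset.mem_filter, Finset.mem_Ico]
        exact ⟨⟨by omega, by omega⟩, hj3⟩
      · rw [Finset.mem_Ioc]; omega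
  have hWGc : (WG.card : ℝ) ≤ L / n + 1 := by
    have := card_le_of_sep WG 0 L n hn (by positivity)
      (by intro c hc; rw [hWG, Finset.mem_filter, Finset.mem_Ico] at hc; exact hc.1)
      (by
        intro m hm m' hm' hl
        rw [hWG, Finset.mem_filter] at hm hm'
        obtain ⟨-, w1, g1⟩ := hm
        obtain ⟨-, w2, g2⟩ := hm'
        by_contra hcon
        push Not at hcon
        obtain ⟨i, c, hi, hcm, hdv, hal⟩ := hW m w1
        obtain ⟨i', c', hi', hcm', hdv', hal'⟩ := hW m' w2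
        have hgood : ∀ j : ℤ, m ≤ j → j < m + ((m' - m).toNat + n : ℕ) → ¬ Bad t M δ j := by
          intro j h1 h2
          by_cases h3 : j < m + n
          · exact g1 j h1 h3
          · exact g2 j (by omega) (by push_cast at h2; omega)
        obtain ⟨c0, hc0⟩ := h.exAlive m
        have e1 : c0 = c := h.run hgood hc0 i (by omega) c hal
        have e2 : c0 = c' := by
          apply h.run hgood hc0 ((m' - m).toNat + i') (by omega) c'
          have : m + (((m' - m).toNat + i' : ℕ) : ℤ) = m' + i' := by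
            push_cast; omega
          rw [this]; exact hal'
        have e3 : (n : ℤ) ∣ m' - m := by
          have : m' - m = (m' - c') - (m - c) := by rw [← e1, ← e2]; ring
          rw [this]
          exact dvd_sub hdv' hdv
        have := Int.le_of_dvd (by omega) e3
        omega)
    refine this.trans (le_of_eq ?_)
    push_cast; ring
  have hWBc : (WB.card : ℝ) ≤ n * B.card := by
    have h1 : WB.card ≤ B.card * n := by
      rw [hWB]
      apply Finset.card_biUnion_le_card_mul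
      intro b _
      rw [Int.card_Ioc]; omega
    have h2 : (WB.card : ℝ) ≤ B.card * n := by exact_mod_cast h1
    linarith
  have hfin : (((Finset.Ico (0 : ℤ) L).filter W).card : ℝ) ≤ WG.card + WB.card := by
    have h1 := (Finset.card_le_card hsub).trans (Finset.card_union_le WG WB)
    exact_mod_cast h1
  have hn0 : (0 : ℝ) ≤ n := by positivity
  have := mul_le_mul_of_nonneg_left hBc hn0
  linarith

end

/-! ### the functions -/

section fn

variable {X : Type} [TopologicalSpace X] [MulAction Zm X] [ContinuousConstSMul Zm X]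

/-- translates -/
def tr (z : ℤ) : C(X, X) := ⟨fun x => zt z • x, continuous_const_smul _⟩

omit [TopologicalSpace X] [ContinuousConstSMul Zm X] in
theorem zt_add (a b : ℤ) (x : X) : zt a • zt b • x = zt (a + b) • x := by
  rw [smul_smul]; rfl

omit [TopologicalSpace X] [ContinuousConstSMul Zm X] in
theorem zt_zero (x : X) : zt 0 • x = x := by
  have : zt 0 = 1 := rfl
  rw [this, one_smul]

/-- the strength of the cut at `-j` -/
def sj (φ : C(X, ℝ)) (j : ℕ) : C(X, ℝ) :=
  ⟨fun x => φ (zt (-(j : ℤ)) • x) / ((j : ℝ) + 1), by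
    apply Continuous.div_const
    exact φ.continuous.comp (continuous_const_smul _)⟩

/-- the maximal strength -/
def mx (φ : C(X, ℝ)) (J : ℕ) : C(X, ℝ) :=
  (Finset.range (J + 1)).sup' ⟨0, by simp⟩ (sj φ)

theorem mx_apply (φ : C(X, ℝ)) (J : ℕ) (x : X) :
    mx φ J x = (Finset.range (J + 1)).sup' ⟨0, by simp⟩ (fun j => sj φ j x) := by
  rw [mx, ContinuousMap.sup'_apply]

theorem le_mx (φ : C(X, ℝ)) (J : ℕ) (x : X) (j : ℕ) (hj : j ≤ J) : sj φ j x ≤ mx φ J x := by
  rw [mx_apply]
  exact Finset.le_sup' (fun j => sj φ j x) (by simp; omega)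

theorem mx_att (φ : C(X, ℝ)) (J : ℕ) (x : X) : ∃ j ≤ J, sj φ j x = mx φ J x := by
  rw [mx_apply]
  obtain ⟨j, hj, h⟩ := Finset.exists_mem_eq_sup' (s := Finset.range (J + 1)) ⟨0, by simp⟩
    (fun j => sj φ j x)
  exact ⟨j, by simp at hj; omega, h.symm⟩

theorem mx_low {φ : C(X, ℝ)} {N L₀ : ℕ} (hm : Mark φ N L₀) (J : ℕ) (hJ : L₀ ≤ J) (x : X) :
    1 / ((L₀ : ℝ) + 1) ≤ mx φ J x := by
  obtain ⟨i, h1, h2, h3⟩ := hm.ret (zt (-(L₀ : ℤ) - 1) • x)
  rw [zt_add] at h3
  have h4 := le_mx φ J x (L₀ + 1 - i) (by omega)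
  refine le_trans ?_ h4
  show _ ≤ φ (zt (-(((L₀ + 1 - i : ℕ)) : ℤ)) • x) / ((((L₀ + 1 - i : ℕ)) : ℝ) + 1)
  have h5 : (-(((L₀ + 1 - i : ℕ)) : ℤ)) = (i : ℤ) + (-(L₀ : ℤ) - 1) := by
    have : ((L₀ + 1 - i : ℕ) : ℤ) = L₀ + 1 - i := by
      rw [Nat.cast_sub (by omega)]; push_cast; ring
    rw [this]; ring
  rw [h5, h3]
  apply div_le_div_of_nonneg_left zero_le_one (by positivity)
  have : (((L₀ + 1 - i : ℕ)) : ℝ) ≤ L₀ := by exact_mod_cast (by omega)
  linarith

theorem sit {φ : C(X, ℝ)} {N L₀ : ℕ} (hm : Mark φ N L₀) (x : X) :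
    Sit (fun c : ℤ => φ (zt c • x)) (fun m : ℤ => mx φ (2 * L₀ + 1) (zt m • x)) N (2 * L₀ + 1)
      (1 / (2 * ((((2 * L₀ + 1 : ℕ) : ℝ) + 2) ^ 2))) := by
  set J := 2 * L₀ + 1 with hJ
  have hJr : (J : ℝ) = 2 * L₀ + 1 := by rw [hJ]; push_cast; ring
  have hL0 : (0 : ℝ) ≤ L₀ := by positivity
  have hst : ∀ (m : ℤ) (j : ℕ), st (fun c : ℤ => φ (zt c • x)) (m - j) m =
      sj φ j (zt m • x) := by
    intro m j
    show φ (zt (m - j) • x) / _ = φ (zt (-(j : ℤ)) • zt m • x) / _
    rw [zt_add]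
    congr 2
    · congr 2; ring
    · push_cast; ring
  have hlow : ∀ m : ℤ, 1 / ((L₀ : ℝ) + 1) ≤ mx φ J (zt m • x) :=
    fun m => mx_low hm J (by omega) _
  have hfar : ∀ c m : ℤ, (J : ℤ) < m - c → st (fun c : ℤ => φ (zt c • x)) c m ≤
      1 / ((J : ℝ) + 1) := by
    intro c m hcm
    unfold st
    have h1 : ((J : ℝ) + 1) ≤ ((m - c : ℤ) : ℝ) + 1 := by
      have : (J : ℝ) ≤ ((m - c : ℤ) : ℝ) := by exact_mod_cast hcm.le
      linarith
    calc φ (zt c • x) / (((m - c : ℤ) : ℝ) + 1) ≤ 1 / (((m - c : ℤ) : ℝ) + 1) := by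
          apply div_le_div_of_nonneg_right (hm.le_one _) (by linarith [(by positivity : (0:ℝ) ≤ J)])
      _ ≤ 1 / ((J : ℝ) + 1) := by
          apply div_le_div_of_nonneg_left zero_le_one (by positivity) h1
  have hhalf : 1 / ((J : ℝ) + 1) = (1 / 2) * (1 / ((L₀ : ℝ) + 1)) := by
    rw [hJr]; field_simp; ring
  have hdpos : (0 : ℝ) < 1 / (2 * (((J : ℝ) + 2) ^ 2)) := by positivity
  have hJ2 : (4 : ℝ) ≤ ((J : ℝ) + 2) ^ 2 := by nlinarith [(by positivity : (0:ℝ) ≤ J)]
  have hdle : 1 / (2 * (((J : ℝ) + 2) ^ 2)) ≤ 1 / 8 := by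
    apply div_le_div_of_nonneg_left zero_le_one (by norm_num); linarith
  have hspos : (0 : ℝ) < 1 / ((L₀ : ℝ) + 1) := by positivity
  refine ⟨fun c => hm.nonneg _, ?_, fun m => lt_of_lt_of_le hspos (hlow m), ?_, ?_, ?_, hdpos,
    hdle.trans (by norm_num), ?_⟩
  · intro c i h1 h2 h3
    show φ (zt (c + i) • x) = 0
    have := hm.sep (zt c • x) i h1 h2 h3
    rw [zt_add] at this
    rwa [add_comm]
  · intro c m hcm
    by_cases hw : m - c ≤ J
    · have h1 := hst m (m - c).toNat
      rw [Int.toNat_of_nonneg (by omega), sub_sub_cancel] at h1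
      rw [h1]
      exact le_mx φ J _ _ (by omega)
    · have h1 := hfar c m (by omega)
      have h2 := hlow m
      rw [hhalf] at h1
      show _ ≤ mx φ J (zt m • x)
      linarith
  · intro m
    obtain ⟨j, hj, hj2⟩ := mx_att φ J (zt m • x)
    exact ⟨m - j, by omega, by rw [hst]; exact hj2⟩
  · intro c m hcm hal
    by_contra hw
    have h1 := hfar c m (by omega)
    have h2 := hlow m
    rw [hhalf] at h1
    have h3 : (1 - 1 / (2 * (((J : ℝ) + 2) ^ 2))) * mx φ J (zt m • x) <
      (1 / 2) * (1 / ((L₀ : ℝ) + 1)) := lt_of_lt_of_le hal h1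
    have h4 : (1 / 2 : ℝ) * mx φ J (zt m • x) ≤
        (1 - 1 / (2 * (((J : ℝ) + 2) ^ 2))) * mx φ J (zt m • x) := by
      apply mul_le_mul_of_nonneg_right _ (by linarith)
      linarith
    linarith
  · intro A hA1 hA2 D k hD hk
    -- (A + D + k) A ≤ (1-δ)² (A+D)(A+k)
    set κ : ℝ := 1 / ((J : ℝ) + 2) ^ 2 with hκ
    have hδκ : 1 / (2 * (((J : ℝ) + 2) ^ 2)) = κ / 2 := by rw [hκ]; field_simp
    rw [hδκ]
    have h1 : (1 - κ) ≤ (1 - κ / 2) ^ 2 := by nlinarith [sq_nonneg κ]
    have hpos : 0 < (A + D) * (A + k) := by positivity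
    have h2 : κ * ((A + D) * (A + k)) ≤ D * k := by
      have hA3 : A + 1 ≤ (J : ℝ) + 2 := by linarith
      have h3 : (A + D) ≤ ((J : ℝ) + 2) * D := by nlinarith
      have h4 : (A + k) ≤ ((J : ℝ) + 2) * k := by nlinarith
      have h5 : (A + D) * (A + k) ≤ (((J : ℝ) + 2) * D) * (((J : ℝ) + 2) * k) :=
        mul_le_mul h3 h4 (by positivity) (by positivity)
      have h6 : (((J : ℝ) + 2) * D) * (((J : ℝ) + 2) * k) = ((J : ℝ) + 2) ^ 2 * (D * k) := by ring
      rw [h6] at h5
      rw [hκ, one_div, inv_mul_le_iff₀ (by positivity)]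
      exact h5
    have h7 : (A + D + k) * A = (A + D) * (A + k) - D * k := by ring
    rw [h7]
    have h8 : (1 - κ) * ((A + D) * (A + k)) ≤ (1 - κ / 2) ^ 2 * ((A + D) * (A + k)) :=
      mul_le_mul_of_nonneg_right h1 hpos.le
    linarith

/-- the cut-off of the relative strength -/
def ze {φ : C(X, ℝ)} {N L₀ : ℕ} (hm : Mark φ N L₀) (J : ℕ) (hJ : L₀ ≤ J) (δ : ℝ) (j : ℕ) :
    C(X, ℝ) :=
  ⟨fun x => max 0 (1 - (1 - sj φ j x / mx φ J x) / δ), by
    apply continuous_const.max
    apply continuous_const.sub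
    apply Continuous.div_const
    apply continuous_const.sub
    apply (sj φ j).continuous.div (mx φ J).continuous
    intro x
    have h1 : (0 : ℝ) < 1 / ((L₀ : ℝ) + 1) := by positivity
    exact (h1.trans_le (mx_low hm J hJ x)).ne'⟩

/-- the pairs -/
def prs (n J : ℕ) : Finset (ℕ × ℕ) :=
  ((Finset.range n) ×ˢ (Finset.range (J + 1))).filter fun p => n ∣ p.2 ∧ p.2 + p.1 ≤ J

theorem prs_ne {n J : ℕ} (hn : 1 ≤ n) : (prs n J).Nonempty :=
  ⟨(0, 0), by
    rw [prs, Finset.mem_filter, Finset.mem_product, Finset.mem_range, Finset.mem_range]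
    exact ⟨⟨hn, by simp⟩, by simp, by simp⟩⟩

end fn

theorem s_OMEGA : Pool.Agent.H252.MD.S_OMEGA := by
  intro X _ _ _ hmk n η hn hη
  have hn0 : (0 : ℝ) < n := by exact_mod_cast hn
  obtain ⟨N, hN⟩ := exists_nat_ge (4 * (n : ℝ) ^ 2 / η)
  obtain ⟨φ, L₀, hm⟩ := hmk N
  set J := 2 * L₀ + 1 with hJ
  have hLJ : L₀ ≤ J := by omega
  set δ : ℝ := 1 / (2 * (((J : ℝ) + 2) ^ 2)) with hδ
  have hδpos : 0 < δ := by positivity
  let Z : ℕ → C(X, ℝ) := ze hm J hLJ δ
  have hMpos : ∀ x, 0 < mx φ J x := fun x =>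
    (show (0 : ℝ) < 1 / ((L₀ : ℝ) + 1) by positivity).trans_le (mx_low hm J hLJ x)
  have hZ : ∀ j x, Z j x = max 0 (1 - (1 - sj φ j x / mx φ J x) / δ) := fun _ _ => rfl
  have hZ0 : ∀ j x, 0 ≤ Z j x := fun j x => le_max_left _ _
  have hZ1 : ∀ j x, j ≤ J → Z j x ≤ 1 := by
    intro j x hj
    rw [hZ]
    apply max_le zero_le_one
    have h1 : sj φ j x / mx φ J x ≤ 1 := (div_le_one (hMpos x)).mpr (le_mx φ J x j hj)
    have h2 : 0 ≤ (1 - sj φ j x / mx φ J x) / δ := div_nonneg (by linarith) hδpos.le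
    linarith
  have hZpos : ∀ j x, 0 < Z j x → (1 - δ) * mx φ J x < sj φ j x := by
    intro j x h
    rw [hZ] at h
    rcases lt_max_iff.mp h with h | h
    · exact absurd h (lt_irrefl _)
    · have h1 : (1 - sj φ j x / mx φ J x) / δ < 1 := by linarith
      rw [div_lt_one hδpos] at h1
      have h2 : 1 - δ < sj φ j x / mx φ J x := by linarith
      rwa [lt_div_iff₀ (hMpos x)] at h2
  let F : ℕ × ℕ → C(X, ℝ) := fun p => (Z (p.2 + p.1)).comp (tr (p.1 : ℤ))
  let ω : C(X, ℝ) := (prs n J).sup' (prs_ne hn) F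
  have hω : ∀ x, ω x = (prs n J).sup' (prs_ne hn) (fun p => F p x) := by
    intro x
    exact ContinuousMap.sup'_apply _ _ _
  have hF : ∀ p x, F p x = Z (p.2 + p.1) (zt (p.1 : ℤ) • x) := fun _ _ => rfl
  refine ⟨ω, ?_, ?_, ?_, ?_⟩
  · intro x
    rw [hω]
    obtain ⟨p, hp⟩ := prs_ne (J := J) hn
    have h0 : 0 ≤ F p x := by rw [hF]; exact hZ0 _ _
    exact h0.trans (Finset.le_sup' (fun p => F p x) hp)
  · intro x
    rw [hω]
    apply Finset.sup'_le
    intro p hp
    rw [prs, Finset.mem_filter] at hp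
    show F p x ≤ 1
    rw [hF]
    exact hZ1 _ _ hp.2.2
  · intro x
    obtain ⟨j, hj, hj2⟩ := mx_att φ J x
    refine ⟨j % n, Nat.mod_lt _ hn, ?_⟩
    apply le_antisymm
    · rw [hω]
      apply Finset.sup'_le
      intro p hp
      rw [prs, Finset.mem_filter] at hp
      show F p _ ≤ 1
      rw [hF]
      exact hZ1 _ _ hp.2.2
    · rw [hω]
      have hmem : (j % n, j - j % n) ∈ prs n J := by
        rw [prs, Finset.mem_filter, Finset.mem_product, Finset.mem_range, Finset.mem_range]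
        refine ⟨⟨Nat.mod_lt _ hn, by simp only; omega⟩, Nat.dvd_sub_mod j, ?_⟩
        have := Nat.mod_le j n
        simp only
        omega
      have h1 := Finset.le_sup' (fun p => F p (zt (-((j % n : ℕ) : ℤ)) • x)) hmem
      refine le_trans (le_of_eq ?_) h1
      show (1 : ℝ) = F _ _
      rw [hF, zt_add]
      have h2 : j - j % n + j % n = j := Nat.sub_add_cancel (Nat.mod_le j n)
      simp only [h2]
      have h3 : ((j % n : ℕ) : ℤ) + -((j % n : ℕ) : ℤ) = 0 := by ring
      rw [h3, zt_zero, hZ, hj2, div_self (hMpos x).ne']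
      simp
  · -- density
    set C₁ : ℝ := 1 + n * (2 * ((n + J) / (N + 1) + 1)) with hC1
    obtain ⟨L₁, hL₁⟩ := exists_nat_ge (C₁ * (2 * n) / η)
    refine ⟨L₁, fun L hL x => ?_⟩
    have hs := sit hm x
    have hcount := hs.count hn (fun m => ω (zt m • x) ≠ 0) (by
      intro m hmW
      rw [hω] at hmW
      obtain ⟨p, hp, hpe⟩ := Finset.exists_mem_eq_sup' (prs_ne (J := J) hn)
        (fun p => F p (zt m • x))
      rw [hpe] at hmW
      rw [prs, Finset.mem_filter, Finset.mem_product, Finset.mem_range] at hp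
      rw [hF] at hmW
      have hpos : 0 < Z (p.2 + p.1) (zt (p.1 : ℤ) • zt m • x) :=
        lt_of_le_of_ne (hZ0 _ _) (Ne.symm hmW)
      have h1 := hZpos _ _ hpos
      rw [zt_add] at h1
      refine ⟨p.1, m - p.2, hp.1.1, by omega, ?_, by omega, ?_⟩
      · rw [sub_sub_cancel]; exact_mod_cast hp.2.1
      · show (1 - δ) * mx φ J (zt (m + p.1) • x) < _
        have h2 : (p.1 : ℤ) + m = m + p.1 := add_comm _ _
        rw [h2] at h1
        refine lt_of_lt_of_eq h1 ?_
        show φ (zt (-((p.2 + p.1 : ℕ) : ℤ)) • zt (m + p.1) • x) / (((p.2 + p.1 : ℕ) : ℝ) + 1) =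
          φ (zt (m - p.2) • x) / (((m + p.1 - (m - p.2) : ℤ) : ℝ) + 1)
        rw [zt_add]
        congr 2
        · congr 2; push_cast; ring
        · push_cast; ring) L
    have hLr : C₁ * (2 * n) / η ≤ L := hL₁.trans (by exact_mod_cast hL)
    rw [div_le_iff₀ hη] at hLr
    have hN2 : 4 * (n : ℝ) ^ 2 ≤ η * ((N : ℝ) + 1) := by
      rw [div_le_iff₀ hη] at hN
      nlinarith
    have hN1 : (0 : ℝ) < (N : ℝ) + 1 := by positivity
    have hLnn : (0 : ℝ) ≤ L := by positivity
    -- 2 n L / (N+1) ≤ η L / (2 n)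
    have h1 : n * (2 * (L / ((N : ℝ) + 1))) ≤ η * L / (2 * n) := by
      rw [le_div_iff₀ (by positivity)]
      have : n * (2 * (L / ((N : ℝ) + 1))) * (2 * n) = (4 * (n : ℝ) ^ 2 * L) / ((N : ℝ) + 1) := by
        field_simp; ring
      rw [this, div_le_iff₀ hN1]
      nlinarith
    have h2 : C₁ ≤ η * L / (2 * n) := by
      rw [le_div_iff₀ (by positivity)]
      linarith
    have h3 : (L : ℝ) / n + 1 + n * (2 * ((L + n + J) / (N + 1) + 1)) =
        L / n + n * (2 * (L / ((N : ℝ) + 1))) + C₁ := by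
      rw [hC1]; field_simp; ring
    have h4 : (1 + η) * L / n = L / n + η * L / (2 * n) + η * L / (2 * n) := by
      field_simp; ring
    have h5 : (L : ℝ) / n + 1 + n * (2 * ((L + n + ((2 * L₀ + 1 : ℕ) : ℝ)) / (N + 1) + 1)) ≤
        (1 + η) * L / n := by
      rw [← hJ, h3, h4]
      linarith
    refine le_trans ?_ (hcount.trans h5)
    have h6 : ∀ a b : ℕ, a ≤ b → (a : ℝ) ≤ b := fun a b h => by exact_mod_cast h
    apply h6
    apply Finset.card_le_card_of_injOn (fun i : ℕ => (i : ℤ))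
    · intro i hi
      have hi' := Finset.mem_filter.mp (Finset.mem_coe.mp hi)
      have hi1 := Finset.mem_range.mp hi'.1
      show ((i : ℕ) : ℤ) ∈ (_ : Set ℤ)
      rw [Finset.mem_coe, Finset.mem_filter, Finset.mem_Ico]
      exact ⟨⟨by omega, by omega⟩, hi'.2⟩
    · intro a _ b _ h
      simpa using h

end

end Pool.Agent.H388.MDO
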